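import Mathlib
import Pool.Agent.H12.FixedLambda

/-!
A two level sieve.
-/

namespace Pool.Agent.H24.DS

open Finset Filter Topology Pool.Agent.H12

open Classical in
/-- counting integers avoiding one residue class for each prime of a finite set -/
lemma count_avoid (Q : Finset ℕ) (hQ : ∀ q ∈ Q, q.Prime) (c : ℕ → ℕ) (K : ℕ) :
    (((range (K+1)).filter (fun k => ∀ q ∈ Q, ¬ k ≡ c q [MOD q])).card : ℝ) ≤
      (K + ∏ q ∈ Q, (q:ℝ)) * ∏ q ∈ Q, (1 - 1/(q:ℝ)) := by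
  set M := ∏ q ∈ Q, q with hM
  have hM0 : 0 < M := prod_pos fun q hq => (hQ q hq).pos
  have h1 := card_range_mod K M hM0 (fun k => ∀ q ∈ Q, ¬ k ≡ c q [MOD q]) (by
    intro b hb q hq h
    apply hb q hq
    have : b % M ≡ b [MOD q] := (Nat.mod_modEq b M).of_dvd (Finset.dvd_prod_of_mem (fun q => q) hq)
    exact this.symm.trans h)
  have h2 : ((range M).filter (fun k => ∀ q ∈ Q, ¬ k ≡ c q [MOD q])).card ≤ ∏ q ∈ Q, (q - 1) := by
    have h3 : ((range M).filter (fun k => ∀ q ∈ Q, ¬ k ≡ c q [MOD q])).card ≤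
        (Q.pi (fun q => (range q).erase (c q % q))).card := by
      refine card_le_card_of_injOn (fun r => fun q _ => r % q) ?_ ?_
      · intro r hr
        rw [mem_coe, mem_filter, mem_range] at hr
        rw [mem_coe, Finset.mem_pi]
        intro q hq
        rw [mem_erase, mem_range]
        exact ⟨fun h => hr.2 q hq h, Nat.mod_lt _ (hQ q hq).pos⟩
      · intro r hr r' hr' h
        rw [mem_coe, mem_filter, mem_range] at hr hr'
        have h8 : r ≡ r' [MOD M] := modEq_prod hQ (by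
          intro q hq
          exact congrFun (congrFun h q) hq)
        exact Nat.ModEq.eq_of_lt_of_lt h8 hr.1 hr'.1
    rw [card_pi] at h3
    refine h3.trans (le_of_eq (prod_congr rfl fun q hq => ?_))
    rw [card_erase_of_mem (mem_range.mpr (Nat.mod_lt _ (hQ q hq).pos)), card_range]
  have h4 : (((range M).filter (fun k => ∀ q ∈ Q, ¬ k ≡ c q [MOD q])).card : ℝ) ≤
      M * ∏ q ∈ Q, (1 - 1/(q:ℝ)) := by
    have h5 : (((range M).filter (fun k => ∀ q ∈ Q, ¬ k ≡ c q [MOD q])).card : ℝ) ≤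
        ((∏ q ∈ Q, (q - 1) : ℕ) : ℝ) := by exact_mod_cast h2
    refine h5.trans (le_of_eq ?_)
    rw [hM]
    push_cast
    rw [← prod_mul_distrib]
    refine prod_congr rfl fun q hq => ?_
    have hq1 := (hQ q hq).one_lt
    have hq0 : (q:ℝ) ≠ 0 := by exact_mod_cast (hQ q hq).ne_zero
    rw [Nat.cast_sub hq1.le]
    field_simp
    push_cast
    ring
  have hM' : (0:ℝ) < M := by exact_mod_cast hM0
  have h6 : (∏ q ∈ Q, (q:ℝ)) = M := by rw [hM]; push_cast; rfl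
  rw [h6]
  calc _ ≤ _ := h1
    _ ≤ (M * ∏ q ∈ Q, (1 - 1/(q:ℝ))) * ((K:ℝ) / M + 1) :=
        mul_le_mul_of_nonneg_right h4 (by positivity)
    _ = (K + M) * ∏ q ∈ Q, (1 - 1/(q:ℝ)) := by field_simp

lemma prod_small (T : Set ℕ) (hT : ∀ q ∈ T, q.Prime)
    (hdiv : ∀ C : ℝ, ∃ Q : Finset ℕ, (∀ q ∈ Q, q ∈ T) ∧ C < ∑ q ∈ Q, (1:ℝ)/q) (ε : ℝ)
    (hε : 0 < ε) : ∃ Q : Finset ℕ, (∀ q ∈ Q, q ∈ T) ∧ ∏ q ∈ Q, (1 - 1/(q:ℝ)) < ε := by
  obtain ⟨C, hC⟩ : ∃ C : ℝ, Real.exp (-C) < ε := by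
    obtain ⟨x, hx⟩ := (Real.tendsto_exp_atBot.eventually (gt_mem_nhds hε)).exists
    exact ⟨-x, by rw [neg_neg]; exact hx⟩
  obtain ⟨Q, hQ, hsum⟩ := hdiv C
  refine ⟨Q, hQ, ?_⟩
  have h2 : ∏ q ∈ Q, (1 - 1/(q:ℝ)) ≤ ∏ q ∈ Q, Real.exp (-(1/(q:ℝ))) := by
    refine prod_le_prod (fun q hq => ?_) (fun q hq => ?_)
    · have h1 : (1:ℝ) ≤ q := by exact_mod_cast (hT q (hQ q hq)).one_lt.le
      have : 1/(q:ℝ) ≤ 1 := by rw [div_le_one (by positivity)]; exact h1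
      linarith
    · have h3 := Real.add_one_le_exp (-(1/(q:ℝ)))
      linarith
  refine h2.trans_lt ?_
  rw [← Real.exp_sum]
  refine lt_of_lt_of_le (Real.exp_lt_exp.mpr ?_) hC.le
  rw [sum_neg_distrib]
  linarith

open Classical in
/-- **The two level sieve.** -/
theorem sieve_main (l : ℕ) (T : Set ℕ) (c : ℕ → ℕ) (hT : ∀ q ∈ T, q.Prime)
    (hdiv : ∀ C : ℝ, ∃ Q : Finset ℕ, (∀ q ∈ Q, q ∈ T) ∧ C < ∑ q ∈ Q, (1:ℝ)/q)
    (S : Set ℕ) (hS : ∀ k ∈ S, l < k ∧ (IsSquare (k - l) ∨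
      ∀ q ∈ T, k ≡ c q [MOD q] → ∀ p : ℕ, p.Prime → p ∣ k - l → ¬ p^2 ∣ k - l →
        IsSquare ((-(q:ℤ) : ℤ) : ZMod p))) (ε : ℝ) (hε : 0 < ε) :
    ∀ᶠ K : ℕ in atTop, (((S ∩ Set.Iic K).ncard : ℕ) : ℝ) ≤ ε * K := by
  obtain ⟨Q, hQ, hQε⟩ := prod_small T hT hdiv (ε/8) (by positivity)
  have hP : ∀ q : ℕ, ∃ P : Finset ℕ, q ∈ Q →
      (∀ p ∈ P, p.Prime ∧ ¬ IsSquare ((-(q:ℤ) : ℤ) : ZMod p)) ∧
        delta0 P < ε / (8 * (Q.card + 1)) := by
    intro q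
    by_cases hq : q ∈ Q
    · have hq0 : 0 < q := (hT q (hQ q hq)).pos
      obtain ⟨P, h1, h2⟩ := delta0_small (-(q:ℤ)) (by
        rintro ⟨r, hr⟩
        have : (0:ℤ) ≤ r * r := mul_self_nonneg r
        have : (0:ℤ) < q := by exact_mod_cast hq0
        omega) (ε / (8 * (Q.card + 1))) (by positivity)
      exact ⟨P, fun _ => ⟨h1, h2⟩⟩
    · exact ⟨∅, fun h => absurd h hq⟩
  choose P hP using hP
  set W : ℝ := 2 + (∏ q ∈ Q, (q:ℝ)) + ∑ q ∈ Q, (1 + Qsq (P q)) * |delta0 (P q)| with hW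
  have hsqrt : Tendsto (fun K : ℕ => Real.sqrt (K:ℝ)) atTop atTop :=
    Real.tendsto_sqrt_atTop.comp tendsto_natCast_atTop_atTop
  filter_upwards [hsqrt.eventually_gt_atTop (8 / ε), eventually_gt_atTop 0,
      tendsto_natCast_atTop_atTop.eventually_gt_atTop (8 * |W| / ε : ℝ)] with K hK1 hK2 hK3
  have hK0 : (0:ℝ) < K := by exact_mod_cast hK2
  set A := (range (K+1)).filter (fun k => l < k ∧ IsSquare (k - l)) with hA
  set B := (range (K+1)).filter (fun k => ∀ q ∈ Q, ¬ k ≡ c q [MOD q]) with hB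
  set Cq : ℕ → Finset ℕ := fun q => ((range (K+1)).filter
    (fun z => ∀ p ∈ P q, ¬ (p ∣ z ∧ ¬ p^2 ∣ z))).image (fun z => z + l) with hCq
  have hsub : S ∩ Set.Iic K ⊆ ↑(A ∪ B ∪ Q.biUnion Cq : Finset ℕ) := by
    rintro k ⟨hkS, hkK⟩
    rw [Set.mem_Iic] at hkK
    obtain ⟨hlk, hk⟩ := hS k hkS
    rw [mem_coe, mem_union, mem_union]
    rcases hk with hk | hk
    · left; left
      rw [hA, mem_filter, mem_range]
      exact ⟨by omega, hlk, hk⟩
    · by_cases hav : ∀ q ∈ Q, ¬ k ≡ c q [MOD q]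
      · left; right
        rw [hB, mem_filter, mem_range]
        exact ⟨by omega, hav⟩
      · push Not at hav
        obtain ⟨q, hq, hqk⟩ := hav
        right
        rw [mem_biUnion]
        refine ⟨q, hq, ?_⟩
        rw [hCq, mem_image]
        refine ⟨k - l, ?_, by omega⟩
        rw [mem_filter, mem_range]
        refine ⟨by omega, ?_⟩
        rintro p hp ⟨hp1, hp2⟩
        exact ((hP q hq).1 p hp).2 (hk q (hQ q hq) hqk p ((hP q hq).1 p hp).1 hp1 hp2)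
  have hc1 : (S ∩ Set.Iic K).ncard ≤ (A ∪ B ∪ Q.biUnion Cq : Finset ℕ).card := by
    rw [← Set.ncard_coe_finset]
    exact Set.ncard_le_ncard hsub (Finset.finite_toSet _)
  have hc2 := card_union_le (A ∪ B) (Q.biUnion Cq)
  have hc3 := card_union_le A B
  have hc4 : A.card ≤ Nat.sqrt K + 1 := card_squares l K
  have hc5 : (B.card : ℝ) ≤ (K + ∏ q ∈ Q, (q:ℝ)) * ∏ q ∈ Q, (1 - 1/(q:ℝ)) :=
    count_avoid Q (fun q hq => hT q (hQ q hq)) c K
  have hc6 : ((Q.biUnion Cq).card : ℝ) ≤ ∑ q ∈ Q, ((K + 1 : ℕ) + Qsq (P q)) * delta0 (P q) := by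
    have e1 : (Q.biUnion Cq).card ≤ ∑ q ∈ Q, (Cq q).card := card_biUnion_le
    have e2 : ((Q.biUnion Cq).card : ℝ) ≤ ∑ q ∈ Q, ((Cq q).card : ℝ) := by exact_mod_cast e1
    refine e2.trans (sum_le_sum fun q hq => ?_)
    refine le_trans ?_ (count_not_exactly (P q) (fun p hp => ((hP q hq).1 p hp).1) (K+1))
    exact_mod_cast card_image_le
  have hc7 : ((S ∩ Set.Iic K).ncard : ℝ) ≤ A.card + B.card + (Q.biUnion Cq).card := by
    exact_mod_cast hc1.trans (hc2.trans (Nat.add_le_add_right hc3 _))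
  have hc8 : (A.card : ℝ) ≤ Nat.sqrt K + 1 := by exact_mod_cast hc4
  have hs1 : ((Nat.sqrt K : ℕ) : ℝ) ≤ Real.sqrt K := Real.nat_sqrt_le_real_sqrt
  have hs2 : Real.sqrt K * Real.sqrt K = K := Real.mul_self_sqrt hK0.le
  have hs3 : Real.sqrt K ≤ ε / 8 * K := by
    have h6 : 8 / ε * Real.sqrt K ≤ K := by
      nlinarith [Real.sqrt_nonneg (K:ℝ)]
    have h7 : ε / 8 * (8 / ε * Real.sqrt K) ≤ ε / 8 * K :=
      mul_le_mul_of_nonneg_left h6 (by positivity)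
    have h8 : ε / 8 * (8 / ε * Real.sqrt K) = Real.sqrt K := by
      field_simp
    linarith
  have hW1 : W < ε / 8 * K := by
    have h6 : 8 * |W| / ε < K := hK3
    rw [div_lt_iff₀ hε] at h6
    have := le_abs_self W
    linarith
  have hQpos : (0:ℝ) ≤ ∏ q ∈ Q, (q:ℝ) := prod_nonneg fun _ _ => by positivity
  have hprod1 : ∏ q ∈ Q, (1 - 1/(q:ℝ)) ≤ 1 := by
    refine prod_le_one (fun q hq => ?_) (fun q hq => ?_)
    · have h1 : (1:ℝ) ≤ q := by exact_mod_cast (hT q (hQ q hq)).one_lt.le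
      have : 1/(q:ℝ) ≤ 1 := by rw [div_le_one (by positivity)]; exact h1
      linarith
    · have : 0 ≤ 1/(q:ℝ) := by positivity
      linarith
  have hd1 : (K + ∏ q ∈ Q, (q:ℝ)) * ∏ q ∈ Q, (1 - 1/(q:ℝ)) ≤ ε/8 * K + ∏ q ∈ Q, (q:ℝ) := by
    rw [add_mul]
    have e1 : (K:ℝ) * ∏ q ∈ Q, (1 - 1/(q:ℝ)) ≤ K * (ε/8) :=
      mul_le_mul_of_nonneg_left hQε.le hK0.le
    have e2 : (∏ q ∈ Q, (q:ℝ)) * ∏ q ∈ Q, (1 - 1/(q:ℝ)) ≤ (∏ q ∈ Q, (q:ℝ)) * 1 :=
      mul_le_mul_of_nonneg_left hprod1 hQpos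
    linarith
  have hd2 : ∑ q ∈ Q, (((K + 1 : ℕ) : ℝ) + Qsq (P q)) * delta0 (P q) ≤
      ε/8 * K + ∑ q ∈ Q, (1 + Qsq (P q)) * |delta0 (P q)| := by
    have e1 : ∀ q ∈ Q, (((K + 1 : ℕ) : ℝ) + Qsq (P q)) * delta0 (P q) ≤
        ε / (8 * (Q.card + 1)) * K + (1 + Qsq (P q)) * |delta0 (P q)| := by
      intro q hq
      push_cast
      have h6 : ((K:ℝ) + 1 + Qsq (P q)) * delta0 (P q) =
        K * delta0 (P q) + (1 + Qsq (P q)) * delta0 (P q) := by ring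
      rw [h6]
      have h7 : (K:ℝ) * delta0 (P q) ≤ K * (ε / (8 * (Q.card + 1))) :=
        mul_le_mul_of_nonneg_left (hP q hq).2.le hK0.le
      have h8 : (1 + (Qsq (P q):ℝ)) * delta0 (P q) ≤ (1 + Qsq (P q)) * |delta0 (P q)| :=
        mul_le_mul_of_nonneg_left (le_abs_self _) (by positivity)
      linarith
    refine (sum_le_sum e1).trans ?_
    rw [sum_add_distrib, sum_const, nsmul_eq_mul]
    have e2 : (Q.card : ℝ) * (ε / (8 * (Q.card + 1)) * K) ≤ ε/8 * K := by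
      have : (Q.card : ℝ) / (Q.card + 1) ≤ 1 := by
        rw [div_le_one (by positivity)]; linarith
      have e3 : (Q.card : ℝ) * (ε / (8 * (Q.card + 1)) * K) =
          (Q.card : ℝ) / (Q.card + 1) * (ε/8 * K) := by field_simp
      rw [e3]
      have : 0 ≤ ε/8 * K := by positivity
      nlinarith
    linarith
  have : W = 2 + (∏ q ∈ Q, (q:ℝ)) + ∑ q ∈ Q, (1 + Qsq (P q)) * |delta0 (P q)| := hW
  nlinarith

open Classical in
/-- one level version -/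
theorem sieve_one (l q : ℕ) (hq : 0 < q)
    (S : Set ℕ) (hS : ∀ k ∈ S, l < k ∧ (IsSquare (k - l) ∨
      ∀ p : ℕ, p.Prime → p ∣ k - l → ¬ p^2 ∣ k - l → IsSquare ((-(q:ℤ) : ℤ) : ZMod p)))
    (ε : ℝ) (hε : 0 < ε) :
    ∀ᶠ K : ℕ in atTop, (((S ∩ Set.Iic K).ncard : ℕ) : ℝ) ≤ ε * K := by
  obtain ⟨P, hP, hδ⟩ := delta0_small (-(q:ℤ)) (by
    rintro ⟨r, hr⟩
    have : (0:ℤ) ≤ r * r := mul_self_nonneg r
    have : (0:ℤ) < q := by exact_mod_cast hq
    omega) (ε / 8) (by positivity)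
  set W : ℝ := 2 + (1 + Qsq P) * |delta0 P| with hW
  have hsqrt : Tendsto (fun K : ℕ => Real.sqrt (K:ℝ)) atTop atTop :=
    Real.tendsto_sqrt_atTop.comp tendsto_natCast_atTop_atTop
  filter_upwards [hsqrt.eventually_gt_atTop (8 / ε), eventually_gt_atTop 0,
      tendsto_natCast_atTop_atTop.eventually_gt_atTop (8 * |W| / ε : ℝ)] with K hK1 hK2 hK3
  have hK0 : (0:ℝ) < K := by exact_mod_cast hK2
  set A := (range (K+1)).filter (fun k => l < k ∧ IsSquare (k - l)) with hA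
  set C := ((range (K+1)).filter
    (fun z => ∀ p ∈ P, ¬ (p ∣ z ∧ ¬ p^2 ∣ z))).image (fun z => z + l) with hC
  have hsub : S ∩ Set.Iic K ⊆ ↑(A ∪ C : Finset ℕ) := by
    rintro k ⟨hkS, hkK⟩
    rw [Set.mem_Iic] at hkK
    obtain ⟨hlk, hk⟩ := hS k hkS
    rw [mem_coe, mem_union]
    rcases hk with hk | hk
    · left
      rw [hA, mem_filter, mem_range]
      exact ⟨by omega, hlk, hk⟩
    · right
      rw [hC, mem_image]
      refine ⟨k - l, ?_, by omega⟩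
      rw [mem_filter, mem_range]
      refine ⟨by omega, ?_⟩
      rintro p hp ⟨hp1, hp2⟩
      exact (hP p hp).2 (hk p (hP p hp).1 hp1 hp2)
  have hc1 : (S ∩ Set.Iic K).ncard ≤ (A ∪ C : Finset ℕ).card := by
    rw [← Set.ncard_coe_finset]
    exact Set.ncard_le_ncard hsub (Finset.finite_toSet _)
  have hc3 := card_union_le A C
  have hc4 : A.card ≤ Nat.sqrt K + 1 := card_squares l K
  have hc6 : (C.card : ℝ) ≤ ((K + 1 : ℕ) + Qsq P) * delta0 P := by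
    refine le_trans ?_ (count_not_exactly P (fun p hp => (hP p hp).1) (K+1))
    exact_mod_cast card_image_le
  have hc7 : ((S ∩ Set.Iic K).ncard : ℝ) ≤ A.card + C.card := by
    exact_mod_cast hc1.trans hc3
  have hc8 : (A.card : ℝ) ≤ Nat.sqrt K + 1 := by exact_mod_cast hc4
  have hs1 : ((Nat.sqrt K : ℕ) : ℝ) ≤ Real.sqrt K := Real.nat_sqrt_le_real_sqrt
  have hs2 : Real.sqrt K * Real.sqrt K = K := Real.mul_self_sqrt hK0.le
  have hs3 : Real.sqrt K ≤ ε / 8 * K := by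
    have h6 : 8 / ε * Real.sqrt K ≤ K := by
      nlinarith [Real.sqrt_nonneg (K:ℝ)]
    have h7 : ε / 8 * (8 / ε * Real.sqrt K) ≤ ε / 8 * K :=
      mul_le_mul_of_nonneg_left h6 (by positivity)
    have h8 : ε / 8 * (8 / ε * Real.sqrt K) = Real.sqrt K := by
      field_simp
    linarith
  have hW1 : W < ε / 8 * K := by
    have h6 : 8 * |W| / ε < K := hK3
    rw [div_lt_iff₀ hε] at h6
    have := le_abs_self W
    linarith
  have hd2 : (((K + 1 : ℕ) : ℝ) + Qsq P) * delta0 P ≤ ε/8 * K + (1 + Qsq P) * |delta0 P| := by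
    push_cast
    have h6 : ((K:ℝ) + 1 + Qsq P) * delta0 P = K * delta0 P + (1 + Qsq P) * delta0 P := by ring
    rw [h6]
    have h7 : (K:ℝ) * delta0 P ≤ K * (ε / 8) := mul_le_mul_of_nonneg_left hδ.le hK0.le
    have h8 : (1 + (Qsq P:ℝ)) * delta0 P ≤ (1 + Qsq P) * |delta0 P| :=
      mul_le_mul_of_nonneg_left (le_abs_self _) (by positivity)
    linarith
  have : W = 2 + (1 + Qsq P) * |delta0 P| := hW
  nlinarith

end Pool.Agent.H24.DS
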