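import Mathlib
import Pool.Agent.H12.PrimeClass

/-!
The primes `q ≡ 3 mod 4` modulo which `k (k-1) + l` has a root.
-/

namespace Pool.Agent.H24.DS

open Finset NumberTheorySymbols Pool.Agent.H12

lemma class_div {m : ℕ} [NeZero m] {a : ZMod m} (ha : IsUnit a) (C : ℝ) :
    ∃ Q : Finset ℕ, (∀ q ∈ Q, q.Prime ∧ (q : ZMod m) = a) ∧ C < ∑ q ∈ Q, (1:ℝ)/q := by
  classical
  have hns := not_summable_prime_class ha
  obtain ⟨u, hu⟩ : ∃ u : Finset ℕ, C < ∑ n ∈ u, pc a n / n := by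
    by_contra hcon
    push Not at hcon
    exact hns (summable_of_sum_le (fun n => by have := pc_nonneg a n; positivity) hcon)
  refine ⟨u.filter (fun n => n.Prime ∧ (n : ZMod m) = a), ?_, ?_⟩
  · intro p hp
    rw [mem_filter] at hp
    exact hp.2
  · refine lt_of_lt_of_le hu (le_of_eq ?_)
    rw [sum_filter]
    refine sum_congr rfl fun n _ => ?_
    unfold pc
    split_ifs <;> simp

/-- the primes used at the first level -/
def Tset (l : ℕ) : Set ℕ := {q | q.Prime ∧ q ≡ 8 * l - 1 [MOD 4 * (4 * l - 1)]}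

lemma Tset_prime {l q : ℕ} (h : q ∈ Tset l) : q.Prime := h.1

lemma Tset_mod4 {l q : ℕ} (hl : 0 < l) (h : q ∈ Tset l) : q % 4 = 3 := by
  have h1 : q ≡ 8 * l - 1 [MOD 4] := h.2.of_dvd ⟨4 * l - 1, rfl⟩
  unfold Nat.ModEq at h1
  omega

lemma Tset_mod {l q : ℕ} (hl : 0 < l) (h : q ∈ Tset l) : q ≡ 1 [MOD 4 * l - 1] := by
  have h1 : q ≡ 8 * l - 1 [MOD 4 * l - 1] := h.2.of_dvd ⟨4, by ring⟩
  have h2 : 8 * l - 1 ≡ 1 [MOD 4 * l - 1] := by
    have : 8 * l - 1 = 1 + (4 * l - 1) * 2 := by omega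
    rw [this]
    unfold Nat.ModEq
    rw [Nat.add_mul_mod_self_left]
  exact h1.trans h2

lemma Tset_div {l : ℕ} (hl : 0 < l) (C : ℝ) :
    ∃ Q : Finset ℕ, (∀ q ∈ Q, q ∈ Tset l) ∧ C < ∑ q ∈ Q, (1:ℝ)/q := by
  have hm : 4 * (4 * l - 1) ≠ 0 := by omega
  have : NeZero (4 * (4 * l - 1)) := ⟨hm⟩
  have hcop : Nat.Coprime (8 * l - 1) (4 * (4 * l - 1)) := by
    refine Nat.Coprime.mul_right ?_ ?_
    · have h2 : Odd (8 * l - 1) := by rw [Nat.odd_iff]; omega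
      have : Nat.Coprime (8 * l - 1) (2^2) := Nat.Coprime.pow_right 2 (Nat.coprime_two_right.mpr h2)
      simpa using this
    · have e : 8 * l - 1 = 1 + (4 * l - 1) * 2 := by omega
      rw [e]
      rw [Nat.coprime_add_mul_left_left]
      exact Nat.coprime_one_left _
  obtain ⟨Q, h1, h2⟩ := class_div (a := ((8 * l - 1 : ℕ) : ZMod (4 * (4 * l - 1))))
    ((ZMod.isUnit_iff_coprime _ _).mpr hcop) C
  refine ⟨Q, fun q hq => ⟨(h1 q hq).1, ?_⟩, h2⟩
  exact (ZMod.natCast_eq_natCast_iff _ _ _).mp (h1 q hq).2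

lemma Tset_not_dvd {l q : ℕ} (hl : 0 < l) (h : q ∈ Tset l) : ¬ q ∣ l := by
  intro hd
  have h1 := Tset_mod hl h
  have hq := Tset_prime h
  have h2 : q ≤ l := Nat.le_of_dvd hl hd
  have h3 : q < 4 * l - 1 := by omega
  have h4 : q = 1 := Nat.ModEq.eq_of_lt_of_lt h1 h3 (by omega)
  exact hq.one_lt.ne' h4

lemma Tset_isSquare {l q : ℕ} (hl : 0 < l) (h : q ∈ Tset l) :
    IsSquare ((1 - 4 * (l:ℤ) : ℤ) : ZMod q) := by
  have hq : Fact q.Prime := ⟨Tset_prime h⟩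
  apply ZMod.isSquare_of_jacobiSym_eq_one
  have e : (1 - 4 * (l:ℤ)) = (-1) * ((4 * l - 1 : ℕ) : ℤ) := by
    rw [Nat.cast_sub (by omega)]; push_cast; ring
  have hqo : Odd q := by
    have := Tset_mod4 hl h
    rw [Nat.odd_iff]; omega
  have hqm := Tset_mod4 hl h
  have hm4 : (4 * l - 1) % 4 = 3 := by omega
  rw [e, jacobiSym.mul_left, jacobiSym.at_neg_one hqo,
    jacobiSym.quadratic_reciprocity_three_mod_four hm4 hqm]
  have h4 : ZMod.χ₄ (q : ZMod 4) = -1 := by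
    have : ((q : ℕ) : ZMod 4) = 3 := by
      have hb4 : q ≡ 3 [MOD 4] := hqm
      have := (ZMod.natCast_eq_natCast_iff q 3 4).mpr hb4
      rw [this]; rfl
    rw [this]; decide
  have h5 : J((q:ℤ) | 4 * l - 1) = 1 := by
    have h6 : (q:ℤ) % ((4 * l - 1 : ℕ) : ℤ) = (1:ℤ) % ((4 * l - 1 : ℕ) : ℤ) := by
      have h7 := Tset_mod hl h
      have h8 : ((q % (4 * l - 1) : ℕ) : ℤ) = ((1 % (4 * l - 1) : ℕ) : ℤ) := by
        have : q % (4 * l - 1) = 1 % (4 * l - 1) := h7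
        rw [this]
      rw [Int.natCast_mod, Int.natCast_mod] at h8
      exact h8
    rw [jacobiSym.mod_left' h6, jacobiSym.one_left]
  rw [h4, h5]
  norm_num

lemma Tset_root {l q : ℕ} (hl : 0 < l) (h : q ∈ Tset l) :
    ∃ c : ℕ, ∀ k : ℕ, 0 < k → k ≡ c [MOD q] → q ∣ k * (k - 1) + l := by
  have hq : Fact q.Prime := ⟨Tset_prime h⟩
  obtain ⟨s, hs⟩ := Tset_isSquare hl h
  have h2 : (2 : ZMod q) ≠ 0 := by
    have hqm := Tset_mod4 hl h
    intro h2
    have : ((2:ℕ) : ZMod q) = 0 := by exact_mod_cast h2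
    rw [ZMod.natCast_eq_zero_iff] at this
    have := (Nat.prime_dvd_prime_iff_eq hq.out Nat.prime_two).mp this
    rw [this] at hqm
    omega
  refine ⟨((1 + s)/2 : ZMod q).val, fun k hk hkc => ?_⟩
  have h3 : (k : ZMod q) = (1 + s)/2 := by
    rw [(ZMod.natCast_eq_natCast_iff _ _ _).mpr hkc, ZMod.natCast_zmod_val]
  rw [← ZMod.natCast_eq_zero_iff]
  push_cast
  rw [Nat.cast_sub (by omega), h3]
  push_cast at hs ⊢
  field_simp
  linear_combination -hs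

end Pool.Agent.H24.DS
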