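import Mathlib

/-!
Sums of roots of unity over the nonzero squares modulo a prime `q ≡ 3 mod 4`.
-/

namespace Pool.Agent.H24.DS

open Finset MulChar

variable (q : ℕ) [hq : Fact q.Prime]

/-- nonzero squares -/
noncomputable def Hs : Finset (ZMod q) := by
  classical exact univ.filter (fun a => a ≠ 0 ∧ IsSquare a)

lemma mem_Hs {a : ZMod q} : a ∈ Hs q ↔ a ≠ 0 ∧ IsSquare a := by
  classical
  simp [Hs]

/-- the complex quadratic character -/
noncomputable def chi : MulChar (ZMod q) ℂ :=
  (quadraticChar (ZMod q)).ringHomComp (Int.castRingHom ℂ)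

lemma chi_apply (a : ZMod q) : chi q a = ((quadraticChar (ZMod q) a : ℤ) : ℂ) := rfl

/-- the additive character -/
noncomputable abbrev psi : AddChar (ZMod q) ℂ := ZMod.stdAddChar

/-- the Gauss sum -/
noncomputable def tau : ℂ := gaussSum (chi q) (psi q)

lemma two_mul_indicator (g : ZMod q) :
    (if g ∈ Hs q then (2:ℤ) else 0) = (if g = 0 then 0 else 1) + quadraticChar (ZMod q) g := by
  classical
  by_cases h0 : g = 0
  · subst h0
    simp [mem_Hs]
  · by_cases hs : IsSquare g
    · rw [if_pos ((mem_Hs q).mpr ⟨h0, hs⟩), if_neg h0, (quadraticChar_one_iff_isSquare h0).mpr hs]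
      norm_num
    · rw [if_neg (fun h => hs ((mem_Hs q).mp h).2), if_neg h0,
        quadraticChar_neg_one_iff_not_isSquare.mpr hs]
      norm_num

lemma ringChar_ne (hq2 : q ≠ 2) : ringChar (ZMod q) ≠ 2 := by
  rw [ZMod.ringChar_zmod_n]; exact hq2

lemma card_Hs (hq2 : q ≠ 2) : 2 * (Hs q).card = q - 1 := by
  classical
  have h1 : ((2 * (Hs q).card : ℕ) : ℤ) = ((q - 1 : ℕ) : ℤ) := by
    have h2 : ∑ g : ZMod q, (if g ∈ Hs q then (2:ℤ) else 0) =
        ∑ g : ZMod q, ((if g = 0 then 0 else 1) + quadraticChar (ZMod q) g) :=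
      sum_congr rfl fun g _ => two_mul_indicator q g
    rw [sum_add_distrib, quadraticChar_sum_zero (ringChar_ne q hq2), add_zero] at h2
    have h3 : ∑ g : ZMod q, (if g ∈ Hs q then (2:ℤ) else 0) = 2 * (Hs q).card := by
      rw [← sum_filter]
      simp [mul_comm]
    have h4 : ∑ g : ZMod q, (if g = 0 then (0:ℤ) else 1) = (q:ℤ) - 1 := by
      have : ∀ g : ZMod q, (if g = 0 then (0:ℤ) else 1) = 1 - (if g = 0 then 1 else 0) := by
        intro g; split_ifs <;> norm_num
      simp only [this, sum_sub_distrib, sum_const, card_univ, ZMod.card, sum_ite_eq', mem_univ,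
        if_true]
      simp
    rw [h3, h4] at h2
    rw [Nat.cast_sub hq.out.one_lt.le]
    push_cast
    exact h2
  exact_mod_cast h1

lemma card_Hs_odd (hq4 : q % 4 = 3) : Odd (Hs q).card := by
  have := card_Hs q (by rintro rfl; omega)
  rw [Nat.odd_iff]; omega

lemma chi_neg_one (hq4 : q % 4 = 3) : chi q (-1) = -1 := by
  have h : ¬ IsSquare (-1 : ZMod q) := by
    rw [ZMod.exists_sq_eq_neg_one_iff]; simpa using hq4
  rw [chi_apply, quadraticChar_neg_one_iff_not_isSquare.mpr h]
  norm_num

lemma chi_ne_one (hq4 : q % 4 = 3) : chi q ≠ 1 := by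
  intro h
  have h1 := chi_neg_one q hq4
  rw [h, MulChar.one_apply isUnit_one.neg] at h1
  norm_num at h1

lemma chi_quadratic : (chi q).IsQuadratic := (quadraticChar_isQuadratic (F := ZMod q)).comp _

lemma tau_sq (hq4 : q % 4 = 3) : tau q ^ 2 = -(q:ℂ) := by
  unfold tau
  rw [gaussSum_sq (chi_ne_one q hq4) (chi_quadratic q) (ZMod.isPrimitive_stdAddChar q),
    chi_neg_one q hq4, ZMod.card]
  ring

lemma conj_psi (a : ZMod q) : (starRingEnd ℂ) (psi q a) = psi q (-a) :=
  (AddChar.map_neg_eq_conj (psi q) a).symm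

lemma conj_chi (a : ZMod q) : (starRingEnd ℂ) (chi q a) = chi q a := by
  rw [chi_apply]; simp

lemma sum_chi_psi (c : ZMod q) (hc : c ≠ 0) :
    ∑ g : ZMod q, chi q g * psi q (g * c) = chi q c * tau q := by
  have h := gaussSum_mulShift (chi q) (psi q) (Units.mk0 c hc)
  have h1 : gaussSum (chi q) ((psi q).mulShift ((Units.mk0 c hc : (ZMod q)ˣ) : ZMod q)) =
      ∑ g : ZMod q, chi q g * psi q (g * c) := by
    unfold gaussSum
    refine sum_congr rfl fun g _ => ?_
    rw [AddChar.mulShift_apply, Units.val_mk0, mul_comm c g]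
  rw [h1, Units.val_mk0] at h
  have h2 : chi q c * chi q c = 1 := by
    rw [chi_apply]
    have := quadraticChar_sq_one hc
    rw [sq] at this
    exact_mod_cast this
  calc _ = (chi q c * chi q c) * ∑ g : ZMod q, chi q g * psi q (g * c) := by rw [h2, one_mul]
    _ = chi q c * (chi q c * ∑ g : ZMod q, chi q g * psi q (g * c)) := by ring
    _ = _ := by rw [h]; rfl

lemma conj_tau (hq4 : q % 4 = 3) : (starRingEnd ℂ) (tau q) = - tau q := by
  have h1 : (starRingEnd ℂ) (tau q) = ∑ g : ZMod q, chi q g * psi q (g * (-1)) := by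
    unfold tau gaussSum
    rw [map_sum]
    refine sum_congr rfl fun g _ => ?_
    rw [map_mul, conj_chi, conj_psi, mul_neg_one]
  rw [h1, sum_chi_psi q (-1) (by simp), chi_neg_one q hq4]
  ring

/-- sum over the squares -/
noncomputable def S (c : ZMod q) : ℂ := ∑ g ∈ Hs q, psi q (g * c)

lemma two_mul_S (c : ZMod q) : ∃ a b : ℤ, 2 * S q c = a + b * tau q := by
  classical
  by_cases hc : c = 0
  · refine ⟨2 * (Hs q).card, 0, ?_⟩
    subst hc
    simp [S]
  · refine ⟨-1, quadraticChar (ZMod q) c, ?_⟩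
    have h1 : 2 * S q c = ∑ g : ZMod q, ((if g ∈ Hs q then (2:ℤ) else 0 : ℤ) : ℂ) * psi q (g*c) := by
      unfold S
      rw [mul_sum, ← sum_filter_add_sum_filter_not univ (fun g => g ∈ Hs q)]
      have e1 : ∑ g ∈ univ.filter (fun g => ¬ g ∈ Hs q),
          ((if g ∈ Hs q then (2:ℤ) else 0 : ℤ) : ℂ) * psi q (g*c) = 0 := by
        refine sum_eq_zero fun g hg => ?_
        rw [mem_filter] at hg
        rw [if_neg hg.2]; simp
      have e2 : univ.filter (fun g => g ∈ Hs q) = Hs q := by
        ext g; simp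
      rw [e1, add_zero, e2]
      refine sum_congr rfl fun g hg => ?_
      rw [if_pos hg]; simp
    have h2 : ∑ g : ZMod q, ((if g ∈ Hs q then (2:ℤ) else 0 : ℤ) : ℂ) * psi q (g*c) =
        ∑ g : ZMod q, (if g = 0 then 0 else 1) * psi q (g*c) +
        ∑ g : ZMod q, chi q g * psi q (g*c) := by
      rw [← sum_add_distrib]
      refine sum_congr rfl fun g _ => ?_
      rw [two_mul_indicator, ← add_mul, chi_apply]
      push_cast
      rfl
    have h3 : ∑ g : ZMod q, (if g = 0 then (0:ℂ) else 1) * psi q (g*c) = -1 := by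
      have e1 : ∀ g : ZMod q, (if g = 0 then (0:ℂ) else 1) * psi q (g*c) =
          psi q (g * c) - (if g = 0 then 1 else 0) := by
        intro g
        split_ifs with h
        · subst h; simp
        · ring
      simp only [e1, sum_sub_distrib, sum_ite_eq', mem_univ, if_true]
      have e2 := AddChar.sum_mulShift c (ZMod.isPrimitive_stdAddChar q)
      rw [if_neg hc] at e2
      have e3 : ∑ g : ZMod q, psi q (g * c) = 0 := by
        simpa using e2
      rw [e3]; ring
    rw [h1, h2, h3, sum_chi_psi q c hc, chi_apply]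
    push_cast
    ring

end Pool.Agent.H24.DS
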