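import Mathlib

/-!
Elementary number theory: if `-q` is not a square modulo the prime `p`, then the exponent of `p`
in `x^2 + q y^2` is even.
-/

namespace Pool.Agent.H24.DS

lemma descent_step (p : ℕ) [Fact p.Prime] (q : ℕ) (hq : ¬ IsSquare ((-(q:ℤ) : ℤ) : ZMod p))
    {x y : ℤ} (h : (p:ℤ) ∣ x^2 + q * y^2) : (p:ℤ) ∣ x ∧ (p:ℤ) ∣ y := by
  have h1 : ((x:ZMod p))^2 + q * (y:ZMod p)^2 = 0 := by
    have := (ZMod.intCast_zmod_eq_zero_iff_dvd (x^2 + q*y^2) p).mpr h
    push_cast at this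
    exact this
  have hy : (y : ZMod p) = 0 := by
    by_contra hy
    apply hq
    refine ⟨(x : ZMod p) / y, ?_⟩
    push_cast
    field_simp
    linear_combination -h1
  have hx : (x : ZMod p) = 0 := by
    rw [hy] at h1
    have : (x : ZMod p)^2 = 0 := by linear_combination h1
    exact pow_eq_zero_iff (two_ne_zero) |>.mp this
  exact ⟨(ZMod.intCast_zmod_eq_zero_iff_dvd x p).mp hx, (ZMod.intCast_zmod_eq_zero_iff_dvd y p).mp hy⟩

lemma even_val (p : ℕ) [hp : Fact p.Prime] (q : ℕ) (hq : ¬ IsSquare ((-(q:ℤ) : ℤ) : ZMod p)) :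
    ∀ (m : ℕ) (x y : ℤ), m ≠ 0 → x^2 + q * y^2 = m → Even (padicValNat p m) := by
  intro m
  induction m using Nat.strong_induction_on with
  | _ m ih =>
    intro x y hm h
    by_cases hpm : p ∣ m
    · have h1 : (p:ℤ) ∣ x^2 + q*y^2 := by rw [h]; exact_mod_cast hpm
      obtain ⟨⟨x', hx⟩, ⟨y', hy⟩⟩ := descent_step p q hq h1
      have h2 : (m:ℤ) = (p:ℤ)^2 * (x'^2 + q*y'^2) := by
        rw [← h, hx, hy]; ring
      obtain ⟨m', hm'⟩ : ∃ m' : ℕ, (m' : ℤ) = x'^2 + q * y'^2 :=
        ⟨(x'^2 + q*y'^2).toNat, Int.toNat_of_nonneg (by positivity)⟩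
      have h3 : m = p^2 * m' := by
        have : (m:ℤ) = ((p^2*m' : ℕ) : ℤ) := by push_cast; rw [h2, hm']
        exact_mod_cast this
      have hm0 : m' ≠ 0 := by rintro rfl; simp at h3; exact hm h3
      have hp1 := hp.out.one_lt
      have hlt : m' < m := by
        rw [h3]
        have : 1 < p^2 := Nat.one_lt_pow (by norm_num) hp1
        have := Nat.pos_of_ne_zero hm0
        nlinarith
      have h4 := ih m' hlt x' y' hm0 hm'.symm
      rw [h3, padicValNat.mul (by positivity) hm0, padicValNat.prime_pow]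
      exact Even.add (by norm_num) h4
    · rw [padicValNat.eq_zero_of_not_dvd hpm]
      exact Even.zero

/-- parity contradiction -/
lemma no_sol (p : ℕ) [hp : Fact p.Prime] (q n e h : ℕ) (hq : ¬ IsSquare ((-(q:ℤ) : ℤ) : ZMod p))
    (hn : Odd (padicValNat p n)) (he : Odd e) (hh : h ≠ 0) {x y : ℤ}
    (hxy : x^2 + q * y^2 = ((h^2 * n^e : ℕ) : ℤ)) : False := by
  have hn0 : n ≠ 0 := by rintro rfl; simp at hn
  have h1 := even_val p q hq (h^2 * n^e) x y (by positivity) hxy
  rw [padicValNat.mul (by positivity) (by positivity), padicValNat.pow,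
    padicValNat.pow] at h1
  have h2 : Odd (e * padicValNat p n) := he.mul hn
  have h3 : Even (2 * padicValNat p h) := even_two_mul _
  have h4 := h3.add_odd h2
  exact (Nat.not_even_iff_odd.mpr h4) h1

lemma val_of_exact (p : ℕ) [hp : Fact p.Prime] {n : ℕ} (h1 : p ∣ n) (h2 : ¬ p^2 ∣ n) :
    Odd (padicValNat p n) := by
  have hn : n ≠ 0 := by rintro rfl; exact h2 (dvd_zero _)
  have h3 : padicValNat p n = 1 := by
    have h4 : 1 ≤ padicValNat p n := one_le_padicValNat_of_dvd hn h1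
    have h5 : ¬ 2 ≤ padicValNat p n := by
      intro h
      exact h2 ((padicValNat_dvd_iff_le hn).mpr h)
    omega
  rw [h3]; exact odd_one

end Pool.Agent.H24.DS
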