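import Mathlib
import Pool.Agent.H24.DS.NT
import Pool.Agent.H24.DS.Gauss

/-!
Incidence structures with a free action of `Z/q`: the determinant argument.
-/

namespace Pool.Agent.H24.DS

open Finset Matrix Polynomial

variable (q : ℕ) [hq : Fact q.Prime] {w : ℕ}

/-- the polynomial matrix -/
noncomputable def Mp (A : Fin w × ZMod q → Fin w × ZMod q → ℤ) : Matrix (Fin w) (Fin w) ℤ[X] :=
  fun i j => ∑ b : ZMod q, C (A (i, 0) (j, b)) * X ^ b.val

/-- the complex matrix -/
noncomputable def Mc (A : Fin w × ZMod q → Fin w × ZMod q → ℤ) (h : ZMod q) :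
    Matrix (Fin w) (Fin w) ℂ :=
  fun i j => ∑ b : ZMod q, (A (i, 0) (j, b) : ℂ) * psi q (h * b)

lemma psi_pow (h : ZMod q) (n : ℕ) : psi q h ^ n = psi q (h * n) := by
  rw [← AddChar.map_nsmul_eq_pow, nsmul_eq_mul, mul_comm]

lemma psi_pow_val (h b : ZMod q) : psi q h ^ b.val = psi q (h * b) := by
  rw [psi_pow, ZMod.natCast_zmod_val]

lemma eval_Mp (A : Fin w × ZMod q → Fin w × ZMod q → ℤ) (h : ZMod q) :
    (Mp q A).map (eval₂RingHom (Int.castRingHom ℂ) (psi q h)) = Mc q A h := by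
  ext i j
  rw [Matrix.map_apply]
  unfold Mp Mc
  rw [map_sum]
  refine sum_congr rfl fun b _ => ?_
  rw [map_mul, map_pow, coe_eval₂RingHom, eval₂_C, eval₂_X, psi_pow_val]
  rfl

lemma eval_det (A : Fin w × ZMod q → Fin w × ZMod q → ℤ) (h : ZMod q) :
    eval₂ (Int.castRingHom ℂ) (psi q h) (Mp q A).det = (Mc q A h).det := by
  have := (RingHom.map_det (eval₂RingHom (Int.castRingHom ℂ) (psi q h)) (Mp q A))
  rw [coe_eval₂RingHom] at this
  rw [this, ← eval_Mp]
  rfl

/-- `M M^* = (k - l) I` -/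
lemma Mc_mul (A : Fin w × ZMod q → Fin w × ZMod q → ℤ) (k l : ℤ)
    (hinv : ∀ i j a b c, A (i, a + c) (j, b + c) = A (i, a) (j, b))
    (hG : ∀ x y, ∑ z, A x z * A y z = if x = y then k else l) (h : ZMod q) (hh : h ≠ 0) :
    Mc q A h * (Mc q A h)ᴴ = ((k - l : ℤ) : ℂ) • (1 : Matrix (Fin w) (Fin w) ℂ) := by
  classical
  ext i i'
  rw [Matrix.mul_apply, Matrix.smul_apply]
  have h1 : ∀ j, Mc q A h i j * (Mc q A h)ᴴ j i' =
      ∑ c : ZMod q, ∑ b : ZMod q, ((A (i,0) (j,b) * A (i',c) (j,b) : ℤ) : ℂ) * psi q (h * c) := by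
    intro j
    rw [Matrix.conjTranspose_apply]
    unfold Mc
    rw [star_sum, sum_mul_sum, sum_comm]
    -- now sum over b' then b
    have h2 : ∀ b : ZMod q, ∑ b' : ZMod q, (A (i,0) (j,b') : ℂ) * psi q (h * b') *
        star ((A (i',0) (j,b) : ℂ) * psi q (h * b)) =
        ∑ b' : ZMod q, ((A (i,0) (j,b') * A (i', b' - b) (j, b') : ℤ) : ℂ) * psi q (h * (b' - b)) := by
      intro b
      refine sum_congr rfl fun b' _ => ?_
      have e1 : A (i', 0) (j, b) = A (i', b' - b) (j, b') := by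
        have := hinv i' j 0 b (b' - b)
        rw [zero_add, add_sub_cancel] at this
        exact this.symm
      rw [e1, star_mul']
      have e2 : star (psi q (h * b)) = psi q (-(h*b)) := conj_psi q (h*b)
      have e4 : psi q (h * (b' - b)) = psi q (h * b') * psi q (-(h*b)) := by
        rw [mul_sub, sub_eq_add_neg, AddChar.map_add_eq_mul]
      have e3 : star ((A (i', b' - b) (j, b') : ℤ) : ℂ) = ((A (i', b' - b) (j, b') : ℤ) : ℂ) := by
        rw [Complex.star_def]; simp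
      rw [e2, e4, e3]
      push_cast
      ring
    rw [sum_congr rfl fun b _ => h2 b, sum_comm]
    rw [sum_comm (γ := ZMod q)]
    -- both sides: sum over b' inside
    rw [sum_comm]
    conv_rhs => rw [sum_comm]
    refine sum_congr rfl fun b' _ => ?_
    -- sum over b of f (b' - b)
    have := Equiv.sum_comp (Equiv.subLeft b') (fun c : ZMod q =>
      ((A (i,0) (j,b') * A (i', c) (j, b') : ℤ) : ℂ) * psi q (h * c))
    rw [← this]
    refine sum_congr rfl fun b _ => ?_
    rw [Equiv.subLeft_apply]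
  simp only [h1]
  rw [sum_comm]
  have h3 : ∀ c : ZMod q, ∑ j, ∑ b : ZMod q,
      ((A (i,0) (j,b) * A (i',c) (j,b) : ℤ) : ℂ) * psi q (h * c) =
      ((l : ℤ) : ℂ) * psi q (h * c) +
        (if (i,(0:ZMod q)) = (i',c) then ((k - l : ℤ) : ℂ) else 0) * psi q (h*c) := by
    intro c
    have e1 : ∑ j, ∑ b : ZMod q, ((A (i,0) (j,b) * A (i',c) (j,b) : ℤ) : ℂ) * psi q (h * c) =
        ((∑ z : Fin w × ZMod q, A (i,0) z * A (i',c) z : ℤ) : ℂ) * psi q (h * c) := by
      rw [Fintype.sum_prod_type]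
      push_cast
      rw [sum_mul]
      refine sum_congr rfl fun j _ => ?_
      rw [sum_mul]
    rw [e1, hG]
    split_ifs with hif
    · push_cast; ring
    · ring
  rw [sum_congr rfl fun c _ => h3 c, sum_add_distrib, ← mul_sum]
  have h4 : ∑ c : ZMod q, psi q (h * c) = 0 := by
    have e2 := AddChar.sum_mulShift h (ZMod.isPrimitive_stdAddChar q)
    rw [if_neg hh] at e2
    have e3 : ∑ c : ZMod q, psi q (c * h) = 0 := by simpa using e2
    rw [← e3]
    exact sum_congr rfl fun c _ => by rw [mul_comm]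
  rw [h4, mul_zero, zero_add]
  by_cases hii : i = i'
  · subst hii
    rw [Matrix.one_apply_eq]
    have : ∀ c : ZMod q, (if (i,(0:ZMod q)) = (i,c) then ((k - l : ℤ) : ℂ) else 0) * psi q (h*c) =
        if c = 0 then ((k - l : ℤ) : ℂ) else 0 := by
      intro c
      by_cases hc : c = 0
      · subst hc; simp
      · rw [if_neg (by simp [Ne.symm hc]), if_neg hc, zero_mul]
    rw [sum_congr rfl fun c _ => this c, sum_ite_eq' univ (0 : ZMod q)]
    simp
  · rw [Matrix.one_apply_ne hii]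
    have : ∀ c : ZMod q, (if (i,(0:ZMod q)) = (i',c) then ((k - l : ℤ) : ℂ) else 0) * psi q (h*c) =
        0 := by
      intro c
      rw [if_neg (by simp [hii]), zero_mul]
    rw [sum_congr rfl fun c _ => this c]
    simp

lemma det_norm (A : Fin w × ZMod q → Fin w × ZMod q → ℤ) (k l : ℤ)
    (hinv : ∀ i j a b c, A (i, a + c) (j, b + c) = A (i, a) (j, b))
    (hG : ∀ x y, ∑ z, A x z * A y z = if x = y then k else l) (h : ZMod q) (hh : h ≠ 0) :
    (Mc q A h).det * (starRingEnd ℂ) (Mc q A h).det = ((k - l : ℤ) : ℂ) ^ w := by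
  have h1 := congrArg Matrix.det (Mc_mul q A k l hinv hG h hh)
  rw [Matrix.det_mul, Matrix.det_conjTranspose, Matrix.det_smul, Matrix.det_one, mul_one,
    Fintype.card_fin] at h1
  exact h1

/-- **Core lemma**: `x² + q y² = (2 h)² (k-l)^(w h)` with `h = (q-1)/2`. -/
theorem core (hq4 : q % 4 = 3) (A : Fin w × ZMod q → Fin w × ZMod q → ℤ) (k l : ℤ)
    (hinv : ∀ i j a b c, A (i, a + c) (j, b + c) = A (i, a) (j, b))
    (hG : ∀ x y, ∑ z, A x z * A y z = if x = y then k else l) :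
    ∃ x y : ℤ, x^2 + q * y^2 = (2 * (Hs q).card)^2 * (k - l)^(w * (Hs q).card) := by
  classical
  set Q : ℤ[X] := (Mp q A).det with hQ
  set P : ℤ[X] := ∏ h ∈ Hs q, Q.comp (X ^ h.val) with hP
  set β : ℂ := ∏ h ∈ Hs q, (Mc q A h).det with hβ
  -- invariance
  have hPg : ∀ g ∈ Hs q, eval₂ (Int.castRingHom ℂ) (psi q g) P = β := by
    intro g hg
    obtain ⟨hg0, hgs⟩ := (mem_Hs q).mp hg
    rw [hP, eval₂_finsetProd, hβ]
    have h1 : ∀ h ∈ Hs q, eval₂ (Int.castRingHom ℂ) (psi q g) (Q.comp (X ^ h.val)) =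
        (Mc q A (g * h)).det := by
      intro h _
      rw [eval₂_comp, eval₂_pow, eval₂_X, psi_pow_val, hQ, eval_det]
    rw [prod_congr rfl h1]
    refine prod_bij (fun h _ => g * h) ?_ ?_ ?_ ?_
    · intro h hh
      obtain ⟨hh0, hhs⟩ := (mem_Hs q).mp hh
      exact (mem_Hs q).mpr ⟨mul_ne_zero hg0 hh0, hgs.mul hhs⟩
    · intro h _ h' _ e
      exact mul_left_cancel₀ hg0 e
    · intro h hh
      obtain ⟨hh0, hhs⟩ := (mem_Hs q).mp hh
      refine ⟨g⁻¹ * h, (mem_Hs q).mpr ⟨mul_ne_zero (inv_ne_zero hg0) hh0, ?_⟩, ?_⟩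
      · exact (isSquare_inv.mpr hgs).mul hhs
      · rw [mul_inv_cancel_left₀ hg0]
    · intro h _; rfl
  -- the sum
  have hsum : ∑ g ∈ Hs q, eval₂ (Int.castRingHom ℂ) (psi q g) P =
      ∑ c ∈ P.support, (P.coeff c : ℂ) * S q c := by
    have h1 : ∀ g ∈ Hs q, eval₂ (Int.castRingHom ℂ) (psi q g) P =
        ∑ c ∈ P.support, (P.coeff c : ℂ) * psi q (g * c) := by
      intro g _
      rw [eval₂_eq_sum, Polynomial.sum]
      refine sum_congr rfl fun c _ => ?_
      rw [psi_pow]; rfl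
    rw [sum_congr rfl h1, sum_comm]
    refine sum_congr rfl fun c _ => ?_
    rw [S, mul_sum]
  rw [sum_congr rfl hPg, sum_const, nsmul_eq_mul] at hsum
  choose a b hab using two_mul_S q
  set x : ℤ := ∑ c ∈ P.support, P.coeff c * a c with hx
  set y : ℤ := ∑ c ∈ P.support, P.coeff c * b c with hy
  have hβ2 : 2 * ((Hs q).card : ℂ) * β = x + y * tau q := by
    calc 2 * ((Hs q).card : ℂ) * β = 2 * (((Hs q).card : ℂ) * β) := by ring
      _ = ∑ c ∈ P.support, (P.coeff c : ℂ) * (2 * S q c) := by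
          rw [hsum, mul_sum]
          exact sum_congr rfl fun c _ => by ring
      _ = x + y * tau q := by
          rw [hx, hy]
          push_cast
          rw [sum_mul, ← sum_add_distrib]
          refine sum_congr rfl fun c _ => ?_
          rw [hab]; ring
  have hconj : 2 * ((Hs q).card : ℂ) * (starRingEnd ℂ) β = x - y * tau q := by
    have := congrArg (starRingEnd ℂ) hβ2
    simp only [map_mul, map_add, conj_tau q hq4, map_intCast, Complex.conj_natCast] at this
    have h2 : (starRingEnd ℂ) 2 = 2 := Complex.conj_ofNat 2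
    rw [h2] at this
    rw [this]; ring
  have hnorm : β * (starRingEnd ℂ) β = ((k - l : ℤ) : ℂ) ^ (w * (Hs q).card) := by
    rw [hβ, map_prod, ← prod_mul_distrib]
    have : ∀ h ∈ Hs q, (Mc q A h).det * (starRingEnd ℂ) (Mc q A h).det =
        ((k - l : ℤ) : ℂ) ^ w := fun h hh => det_norm q A k l hinv hG h ((mem_Hs q).mp hh).1
    rw [prod_congr rfl this, prod_const, ← pow_mul]
  refine ⟨x, y, ?_⟩
  have hfin : ((x^2 + q * y^2 : ℤ) : ℂ) =
      (((2 * (Hs q).card)^2 * (k - l)^(w * (Hs q).card) : ℤ) : ℂ) := by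
    have h1 : (2 * ((Hs q).card : ℂ) * β) * (2 * ((Hs q).card : ℂ) * (starRingEnd ℂ) β) =
        (x + y * tau q) * (x - y * tau q) := by rw [hβ2, hconj]
    have h2 : (2 * ((Hs q).card : ℂ) * β) * (2 * ((Hs q).card : ℂ) * (starRingEnd ℂ) β) =
        (2 * ((Hs q).card : ℂ))^2 * (β * (starRingEnd ℂ) β) := by ring
    have h3 : ((x:ℂ) + y * tau q) * (x - y * tau q) = x^2 - y^2 * (tau q)^2 := by ring
    rw [h2, h3, hnorm, tau_sq q hq4] at h1
    push_cast at h1 ⊢
    rw [h1]; ring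
  exact_mod_cast hfin

end Pool.Agent.H24.DS
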