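import Mathlib

/-!
Definitions: difference sets in finite groups, symmetric designs, and automorphisms of prime order
without fixed points.
-/

namespace Pool.Agent.H24.DS

open Finset

/-- `B` is (the indexed family of blocks of) a symmetric `(v,k,l)`-design: `k < v`, the `v` blocks
`B j` are subsets of a `v`-element set, every block has exactly `k` points, every point lies in
exactly `r` blocks (for some number `r`), and any two distinct points lie together in exactly `l`
blocks. -/
def IsSymmetricDesign (v k l : ℕ) (B : Fin v → Finset (Fin v)) : Prop :=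
  k < v ∧ (∀ j, (B j).card = k) ∧
    (∃ r : ℕ, ∀ x, (univ.filter (fun j => x ∈ B j)).card = r) ∧
    (∀ x y, x ≠ y → (univ.filter (fun j => x ∈ B j ∧ y ∈ B j)).card = l)

/-- The family of blocks `B` has an automorphism with `q`-th power the identity that fixes no
point: a permutation `σ` of the points and a permutation `τ` of the blocks preserving incidence. -/
def HasFreeAut {v : ℕ} (B : Fin v → Finset (Fin v)) (q : ℕ) : Prop :=
  ∃ σ τ : Equiv.Perm (Fin v), σ ^ q = 1 ∧ τ ^ q = 1 ∧ (∀ x, σ x ≠ x) ∧
    ∀ x j, x ∈ B j ↔ σ x ∈ B (τ j)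

/-- There is a `(v,k,l)`-difference set in some group of order `v`: a `k`-element subset `D`,
`k < v`, such that every element `g ≠ 1` of the group has exactly `l` representations
`g = a b⁻¹` with `a, b ∈ D`. The group need not be abelian. -/
def DifferenceSetExists (v k l : ℕ) : Prop :=
  k < v ∧ ∃ (G : Type) (_ : Group G) (_ : Fintype G) (_ : DecidableEq G) (D : Finset G),
    Fintype.card G = v ∧ D.card = k ∧
      ∀ g : G, g ≠ 1 → ((D ×ˢ D).filter (fun t => t.1 * t.2⁻¹ = g)).card = l

/-- For fixed `l`, the block sizes `l < k ≤ K` with `l ∣ k (k-1)`; for these (and only these)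
`k ≤ K` there is an integer `v > k` with `l (v-1) = k (k-1)`. -/
def admissibleSizes (l K : ℕ) : Set ℕ := {k | l < k ∧ k ≤ K ∧ l ∣ k * (k - 1)}

/-- For fixed `l`, the block sizes `0 < k ≤ K` such that for some `v` there is a
`(v,k,l)`-difference set in some group of order `v`. -/
def differenceSetSizes (l K : ℕ) : Set ℕ := {k | 0 < k ∧ k ≤ K ∧ ∃ v, DifferenceSetExists v k l}

/-- For fixed `l`, the block sizes `0 < k ≤ K` such that for some `v` there is a symmetric
`(v,k,l)`-design which has, for every prime `q ≡ 3 mod 4` dividing `v`, an automorphism of order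
`q` fixing no point. -/
def semiregularSizes (l K : ℕ) : Set ℕ :=
  {k | 0 < k ∧ k ≤ K ∧ ∃ (v : ℕ) (B : Fin v → Finset (Fin v)), IsSymmetricDesign v k l B ∧
    ∀ q : ℕ, q.Prime → q % 4 = 3 → q ∣ v → HasFreeAut B q}

/-- For fixed `l` and a prime `q`, the block sizes `0 < k ≤ K` such that for some `v` there is a
symmetric `(v,k,l)`-design with an automorphism of order `q` fixing no point. -/
def freeAutSizes (q l K : ℕ) : Set ℕ :=
  {k | 0 < k ∧ k ≤ K ∧ ∃ (v : ℕ) (B : Fin v → Finset (Fin v)), IsSymmetricDesign v k l B ∧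
    HasFreeAut B q}

/-- the `w ≤ W`, `w ≥ 1`, such that there is a `(4w-1, 2w-1, w-1)`-difference set in some group of
order `4w-1` -/
def hadamardDiffOrders (W : ℕ) : Set ℕ :=
  {w | 0 < w ∧ w ≤ W ∧ DifferenceSetExists (4 * w - 1) (2 * w - 1) (w - 1)}

/-- the `w ≤ W`, `w ≥ 1`, such that there is a symmetric `(4w-1, 2w-1, w-1)`-design which has, for
every prime `q ≡ 3 mod 4` dividing `4w-1`, an automorphism of order `q` fixing no point -/
def hadamardSemiregular (W : ℕ) : Set ℕ :=
  {w | 0 < w ∧ w ≤ W ∧ ∃ B : Fin (4 * w - 1) → Finset (Fin (4 * w - 1)),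
    IsSymmetricDesign (4 * w - 1) (2 * w - 1) (w - 1) B ∧
      ∀ q : ℕ, q.Prime → q % 4 = 3 → q ∣ 4 * w - 1 → HasFreeAut B q}

/-- the `w ≤ W`, `w ≥ 1`, such that there is a symmetric `(4w-1, 2w-1, w-1)`-design with an
automorphism of order `q` fixing no point -/
def hadamardFreeAut (q W : ℕ) : Set ℕ :=
  {w | 0 < w ∧ w ≤ W ∧ ∃ B : Fin (4 * w - 1) → Finset (Fin (4 * w - 1)),
    IsSymmetricDesign (4 * w - 1) (2 * w - 1) (w - 1) B ∧ HasFreeAut B q}

end Pool.Agent.H24.DS
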