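import Mathlib
import Pool.Agent.H12.FixedLambda
import Pool.Agent.H24.DS.Core

/-!
Symmetric designs with a semiregular automorphism of prime order.
-/

namespace Pool.Agent.H24.DS

open Finset Pool.Agent.H12

/-- cycle type of a fixed-point-free permutation of prime order -/
lemma cycleType_free {α : Type} [Fintype α] [DecidableEq α] {q w : ℕ} (hq : q.Prime)
    (hw : 0 < w) (hcard : Fintype.card α = w * q) (σ : Equiv.Perm α) (hσ : σ ^ q = 1)
    (hfree : ∀ x, σ x ≠ x) : σ.cycleType = Multiset.replicate w q := by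
  have hpos : 0 < Fintype.card α := by rw [hcard]; exact Nat.mul_pos hw hq.pos
  have hne : Nonempty α := Fintype.card_pos_iff.mp hpos
  have h1 : σ ≠ 1 := by
    rintro rfl
    exact hfree hne.some rfl
  have h2 : orderOf σ = q := orderOf_eq_prime hσ h1 (hp := ⟨hq⟩)
  obtain ⟨n, hn⟩ := Equiv.Perm.cycleType_prime_order (σ := σ) (by rw [h2]; exact hq)
  rw [h2] at hn
  have h3 := Equiv.Perm.sum_cycleType σ
  have h4 : σ.support = univ := by
    ext x; simp [hfree x]
  rw [hn, h4, card_univ, hcard, Multiset.sum_replicate, smul_eq_mul] at h3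
  have h5 : n + 1 = w := Nat.eq_of_mul_eq_mul_right hq.pos h3
  rw [hn, h5]

/-- coordinates for a semiregular permutation -/
lemma coords {α : Type} [Fintype α] [DecidableEq α] {q w : ℕ} (hq : q.Prime)
    (hw : 0 < w) (hcard : Fintype.card α = w * q) (σ : Equiv.Perm α) (hσ : σ ^ q = 1)
    (hfree : ∀ x, σ x ≠ x) :
    ∃ e : α ≃ Fin w × ZMod q, ∀ x, e (σ x) = ((e x).1, (e x).2 + 1) := by
  have hF : Fact q.Prime := ⟨hq⟩
  have hcard2 : Fintype.card (Fin w × ZMod q) = w * q := by
    rw [Fintype.card_prod, Fintype.card_fin, ZMod.card]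
  let f : α ≃ Fin w × ZMod q := Fintype.equivOfCardEq (by rw [hcard, hcard2])
  let std : Equiv.Perm (Fin w × ZMod q) := Equiv.prodCongr (Equiv.refl _) (Equiv.addRight 1)
  let σ' : Equiv.Perm (Fin w × ZMod q) := (f.symm.trans σ).trans f
  have hpow : ∀ n : ℕ, ∀ x, (σ' ^ n) x = f ((σ ^ n) (f.symm x)) := by
    intro n
    induction n with
    | zero => intro x; simp
    | succ n ih =>
      intro x
      rw [pow_succ', Equiv.Perm.mul_apply, ih, pow_succ', Equiv.Perm.mul_apply]
      simp [σ']
  have h1 : σ'.cycleType = Multiset.replicate w q := by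
    refine cycleType_free hq hw hcard2 σ' ?_ ?_
    · ext1 x
      rw [hpow q x, hσ]
      simp
    · intro x hx
      have : f (σ (f.symm x)) = x := hx
      exact hfree (f.symm x) (by rw [← f.apply_eq_iff_eq, this]; simp)
  have hstd : ∀ n : ℕ, ∀ x, (std ^ n) x = (x.1, x.2 + n) := by
    intro n
    induction n with
    | zero => intro x; simp
    | succ n ih =>
      intro x
      rw [pow_succ', Equiv.Perm.mul_apply, ih]
      simp [std, add_assoc]
  have h2 : std.cycleType = Multiset.replicate w q := by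
    refine cycleType_free hq hw hcard2 std ?_ ?_
    · ext1 x
      rw [hstd q x]
      simp
    · intro x hx
      have : (x.1, x.2 + 1) = x := hx
      have := congrArg Prod.snd this
      simp at this
  have h3 : IsConj σ' std := Equiv.Perm.isConj_iff_cycleType_eq.mpr (by rw [h1, h2])
  obtain ⟨c, hc⟩ := isConj_iff.mp h3
  refine ⟨f.trans c, fun x => ?_⟩
  have h4 : (c * σ' * c⁻¹) (c (f x)) = std (c (f x)) := by rw [hc]
  rw [Equiv.Perm.mul_apply, Equiv.Perm.mul_apply, ← Equiv.Perm.mul_apply c⁻¹ c, inv_mul_cancel,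
    Equiv.Perm.one_apply] at h4
  have h5 : σ' (f x) = f (σ x) := by simp [σ']
  rw [h5] at h4
  simp only [Equiv.trans_apply]
  rw [h4]
  rfl

/-- fixed-point-free permutation of prime order on a finite set: the order divides the size -/
lemma prime_dvd_card {α : Type} [Fintype α] [DecidableEq α] {q : ℕ} (hq : q.Prime)
    (σ : Equiv.Perm α) (hσ : σ ^ q = 1) (hfree : ∀ x, σ x ≠ x) : q ∣ Fintype.card α := by
  have hF : Fact q.Prime := ⟨hq⟩
  by_cases hne : Nonempty α
  · have h1 : σ ≠ 1 := by
      rintro rfl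
      exact hfree hne.some rfl
    have h2 : orderOf σ = q := orderOf_eq_prime hσ h1
    obtain ⟨n, hn⟩ := Equiv.Perm.cycleType_prime_order (σ := σ) (by rw [h2]; exact hq)
    rw [h2] at hn
    have h3 := Equiv.Perm.sum_cycleType σ
    have h4 : σ.support = univ := by
      ext x; simp [hfree x]
    rw [hn, h4, card_univ, Multiset.sum_replicate, smul_eq_mul] at h3
    exact ⟨n + 1, by rw [← h3, mul_comm]⟩
  · rw [not_nonempty_iff] at hne
    rw [Fintype.card_eq_zero]
    exact dvd_zero _

/-- **Local condition** for symmetric designs of odd size with a semiregular automorphism. -/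
theorem local_condition {v k l r : ℕ} (B : Fin v → Finset (Fin v)) (hkv : k < v)
    (h1 : ∀ j, (B j).card = k) (h2 : ∀ x, (univ.filter (fun j => x ∈ B j)).card = r)
    (h3 : ∀ x y, x ≠ y → (univ.filter (fun j => x ∈ B j ∧ y ∈ B j)).card = l)
    (hlk : l < k) (q : ℕ) (hq : q.Prime) (hq4 : q % 4 = 3) (hqv : q ∣ v) (hv : v % 2 = 1)
    (hql : ¬ q ∣ l) (σ τ : Equiv.Perm (Fin v)) (hσ : σ ^ q = 1) (hτ : τ ^ q = 1)
    (hfree : ∀ x, σ x ≠ x) (hinc : ∀ x j, x ∈ B j ↔ σ x ∈ B (τ j))
    (p : ℕ) (hp : p.Prime) (hp1 : p ∣ k - l) (hp2 : ¬ p^2 ∣ k - l) :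
    IsSquare ((-(q:ℤ) : ℤ) : ZMod p) := by
  classical
  have hF : Fact q.Prime := ⟨hq⟩
  have hFp : Fact p.Prime := ⟨hp⟩
  have hdes : SymmetricDesignExists v k l := ⟨hkv, r, B, h1, h2, h3⟩
  obtain ⟨w, hw⟩ := hqv
  rw [mul_comm] at hw
  have hw0 : 0 < w := by
    rcases Nat.eq_zero_or_pos w with h | h
    · rw [h, zero_mul] at hw; omega
    · exact h
  have hwo : Odd w := by
    have : Odd v := Nat.odd_iff.mpr hv
    rw [hw, Nat.odd_mul] at this
    exact this.1
  -- counting identity
  have hcount : l * (v - 1) = k * (k - 1) := (design_lt (by omega) hdes).2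
  -- blocks are not fixed
  have hτfree : ∀ j, τ j ≠ j := by
    intro j hj
    apply hql
    -- the restriction of σ to the block
    have hinv : ∀ x, x ∈ B j ↔ σ x ∈ B j := by
      intro x
      have := hinc x j
      rwa [hj] at this
    have hq1 : q ∣ Fintype.card {x // x ∈ B j} := by
      refine prime_dvd_card hq (σ.subtypePerm (fun x => (hinv x).symm)) ?_ ?_
      · ext1 x
        rw [Equiv.Perm.subtypePerm_pow]
        apply Subtype.ext
        simp [hσ]
      · intro x hx
        apply hfree x.1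
        have := congrArg Subtype.val hx
        simpa using this
    rw [Fintype.card_coe, h1] at hq1
    have h5 : q ∣ l * (v - 1) := by rw [hcount]; exact Dvd.dvd.mul_right hq1 _
    have h6 : ¬ q ∣ v - 1 := by
      intro h
      have h7 : q ∣ v := ⟨w, by rw [hw, mul_comm]⟩
      have h8 : q ∣ v - (v - 1) := Nat.dvd_sub h7 h
      have h9 : v - (v - 1) = 1 := by omega
      rw [h9] at h8
      exact hq.one_lt.ne' (Nat.dvd_one.mp h8)
    exact (hq.dvd_mul.mp h5).resolve_right h6
  have hcardv : Fintype.card (Fin v) = w * q := by rw [Fintype.card_fin, hw]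
  obtain ⟨e, he⟩ := coords hq hw0 hcardv σ hσ hfree
  obtain ⟨e', he'⟩ := coords hq hw0 hcardv τ hτ hτfree
  -- the incidence function
  set A : Fin w × ZMod q → Fin w × ZMod q → ℤ :=
    fun x y => if e.symm x ∈ B (e'.symm y) then 1 else 0 with hA
  have hstep : ∀ x y, A (x.1, x.2 + 1) (y.1, y.2 + 1) = A x y := by
    intro x y
    have e1 : e.symm (x.1, x.2 + 1) = σ (e.symm x) := by
      rw [Equiv.symm_apply_eq, he, Equiv.apply_symm_apply]
    have e2 : e'.symm (y.1, y.2 + 1) = τ (e'.symm y) := by
      rw [Equiv.symm_apply_eq, he', Equiv.apply_symm_apply]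
    simp only [hA]
    rw [e1, e2]
    exact if_congr (hinc _ _).symm rfl rfl
  have hinvn : ∀ (n : ℕ) i j a b, A (i, a + n) (j, b + n) = A (i, a) (j, b) := by
    intro n
    induction n with
    | zero => intro i j a b; simp
    | succ n ih =>
      intro i j a b
      have := hstep (i, a + n) (j, b + n)
      simp only at this
      rw [ih] at this
      rw [← this]
      push_cast
      rw [add_assoc, add_assoc]
  have hinv : ∀ i j a b c, A (i, a + c) (j, b + c) = A (i, a) (j, b) := by
    intro i j a b c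
    have := hinvn c.val i j a b
    rwa [ZMod.natCast_zmod_val] at this
  have hr : r = k := by
    have e1 : ∑ j, (B j).card = ∑ x, (univ.filter (fun j => x ∈ B j)).card := by
      have := Finset.sum_card_bipartiteAbove_eq_sum_card_bipartiteBelow
        (s := (univ : Finset (Fin v))) (t := (univ : Finset (Fin v))) (fun x j => x ∈ B j)
      simp only [Finset.bipartiteAbove, Finset.bipartiteBelow] at this
      rw [this]
      refine Finset.sum_congr rfl fun j _ => ?_
      congr 1
      ext x; simp
    simp only [h1, h2, Finset.sum_const, Finset.card_univ, Fintype.card_fin, smul_eq_mul] at e1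
    exact (Nat.eq_of_mul_eq_mul_left (by omega) e1).symm
  have hG : ∀ x y, ∑ z, A x z * A y z = if x = y then (k:ℤ) else (l:ℤ) := by
    intro x y
    have e1 : ∑ z, A x z * A y z = ∑ j : Fin v,
        (if e.symm x ∈ B j ∧ e.symm y ∈ B j then (1:ℤ) else 0) := by
      rw [← Equiv.sum_comp e'.symm]
      refine sum_congr rfl fun z _ => ?_
      simp only [hA]
      rw [ite_and]
      split_ifs <;> norm_num
    rw [e1, Finset.sum_boole]
    by_cases hxy : x = y
    · subst hxy
      rw [if_pos rfl]
      have e2 : (univ.filter (fun j => e.symm x ∈ B j ∧ e.symm x ∈ B j)) =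
          univ.filter (fun j => e.symm x ∈ B j) := filter_congr (fun j _ => and_self_iff)
      rw [e2, h2, hr]
    · rw [if_neg hxy]
      have : e.symm x ≠ e.symm y := fun h => hxy (e.symm.injective h)
      exact_mod_cast h3 _ _ this
  obtain ⟨x, y, hxy⟩ := core q hq4 A k l hinv hG
  by_contra hns
  refine no_sol p q (k - l) (w * (Hs q).card) (2 * (Hs q).card) hns (val_of_exact p hp1 hp2)
    (hwo.mul (card_Hs_odd q hq4)) ?_ (x := x) (y := y) ?_
  · have := (card_Hs_odd q hq4).pos
    omega
  · rw [hxy]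
    push_cast
    rw [Nat.cast_sub hlk.le]

end Pool.Agent.H24.DS
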