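import Mathlib
import Pool.Agent.H12.FixedLambda
import Pool.Agent.H24.DS.Defs
import Pool.Agent.H24.DS.Sieve
import Pool.Agent.H24.DS.QLevel
import Pool.Agent.H24.DS.Local

/-!
Difference sets and designs with semiregular automorphisms are rare.
-/

namespace Pool.Agent.H24.DS

open Finset Filter Topology
open Pool.Agent.H12 (SymmetricDesignExists design_lt brc_even)

/-- a difference set gives a symmetric design with a regular group of automorphisms -/
theorem semiregular_of_differenceSet {v k l : ℕ} (h : DifferenceSetExists v k l) :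
    ∃ B : Fin v → Finset (Fin v), IsSymmetricDesign v k l B ∧
      ∀ q : ℕ, q.Prime → q ∣ v → HasFreeAut B q := by
  classical
  obtain ⟨hkv, G, _, _, _, D, hG, hD, hrep⟩ := h
  let e : G ≃ Fin v := Fintype.equivFinOfCardEq hG
  let B : Fin v → Finset (Fin v) := fun j =>
    univ.filter (fun x => e.symm x * (e.symm j)⁻¹ ∈ D)
  have hB : ∀ x j, x ∈ B j ↔ e.symm x * (e.symm j)⁻¹ ∈ D := by
    intro x j; simp [B]
  refine ⟨B, ⟨hkv, ?_, ⟨k, ?_⟩, ?_⟩, ?_⟩
  · intro j
    rw [← hD]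
    refine card_bij (fun x _ => e.symm x * (e.symm j)⁻¹) ?_ ?_ ?_
    · intro x hx; exact (hB x j).mp hx
    · intro x _ y _ hxy
      exact e.symm.injective (mul_right_cancel hxy)
    · intro d hd
      refine ⟨e (d * e.symm j), (hB _ _).mpr ?_, ?_⟩ <;> simp [hd]
  · intro x
    rw [← hD]
    refine card_bij (fun j _ => e.symm x * (e.symm j)⁻¹) ?_ ?_ ?_
    · intro j hj
      rw [mem_filter] at hj
      exact (hB x j).mp hj.2
    · intro i _ j _ hij
      exact e.symm.injective (inv_injective (mul_left_cancel hij))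
    · intro d hd
      refine ⟨e (d⁻¹ * e.symm x), ?_, ?_⟩
      · rw [mem_filter]
        exact ⟨mem_univ _, (hB _ _).mpr (by simp [hd])⟩
      · simp
  · intro x y hxy
    rw [← hrep (e.symm x * (e.symm y)⁻¹) (by
      intro h
      exact hxy (e.symm.injective (mul_inv_eq_one.mp h)))]
    refine card_bij (fun j _ => (e.symm x * (e.symm j)⁻¹, e.symm y * (e.symm j)⁻¹)) ?_ ?_ ?_
    · intro j hj
      rw [mem_filter] at hj
      rw [mem_filter, mem_product]
      refine ⟨⟨(hB x j).mp hj.2.1, (hB y j).mp hj.2.2⟩, ?_⟩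
      simp only
      group
    · intro i _ j _ hij
      have := congrArg Prod.fst hij
      exact e.symm.injective (inv_injective (mul_left_cancel this))
    · rintro ⟨a, b⟩ hab
      rw [mem_filter, mem_product] at hab
      obtain ⟨⟨ha, hb⟩, hab⟩ := hab
      simp only at ha hb hab
      have hb2 : e.symm y * (e.symm x)⁻¹ * a = b := by
        have h1 : a = e.symm x * (e.symm y)⁻¹ * b := by rw [← hab]; group
        rw [h1]; group
      refine ⟨e (a⁻¹ * e.symm x), ?_, ?_⟩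
      · rw [mem_filter]
        refine ⟨mem_univ _, (hB _ _).mpr (by simpa using ha), (hB _ _).mpr ?_⟩
        simp only [Equiv.symm_apply_apply, mul_inv_rev, inv_inv]
        rw [← mul_assoc, hb2]
        exact hb
      · simp only [Equiv.symm_apply_apply, mul_inv_rev, inv_inv, Prod.mk.injEq]
        refine ⟨by group, ?_⟩
        rw [← mul_assoc, hb2]
  · intro q hq hqv
    have hF : Fact q.Prime := ⟨hq⟩
    obtain ⟨g, hg⟩ := exists_prime_orderOf_dvd_card (G := G) q (by rw [hG]; exact hqv)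
    have hgq : g ^ q = 1 := by rw [← hg]; exact pow_orderOf_eq_one g
    have hg1 : g ≠ 1 := by
      rintro rfl
      rw [orderOf_one] at hg
      exact hq.one_lt.ne hg
    let σ : Equiv.Perm (Fin v) := (e.symm.trans (Equiv.mulRight g)).trans e
    have hσ : ∀ x, σ x = e (e.symm x * g) := fun x => rfl
    have hpow : ∀ (n : ℕ) x, (σ ^ n) x = e (e.symm x * g ^ n) := by
      intro n
      induction n with
      | zero => intro x; simp
      | succ n ih =>
        intro x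
        rw [pow_succ', Equiv.Perm.mul_apply, ih, hσ]
        simp [pow_succ, mul_assoc]
    have h1 : σ ^ q = 1 := by
      ext1 x
      rw [hpow, hgq]; simp
    refine ⟨σ, σ, h1, h1, ?_, ?_⟩
    · intro x hx
      rw [hσ] at hx
      have : e.symm x * g = e.symm x := by
        rw [← Equiv.symm_apply_apply e (e.symm x * g), hx]
      exact hg1 (mul_eq_left.mp this)
    · intro x j
      rw [hB, hB, hσ, hσ]
      simp only [Equiv.symm_apply_apply, mul_inv_rev]
      rw [show e.symm x * g * (g⁻¹ * (e.symm j)⁻¹) = e.symm x * (e.symm j)⁻¹ by group]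

lemma IsSymmetricDesign.exists' {v k l : ℕ} {B : Fin v → Finset (Fin v)}
    (h : IsSymmetricDesign v k l B) : SymmetricDesignExists v k l := by
  obtain ⟨hkv, h1, ⟨r, h2⟩, h3⟩ := h
  exact ⟨hkv, r, B, h1, h2, h3⟩

lemma HasFreeAut.dvd {v : ℕ} {B : Fin v → Finset (Fin v)} {q : ℕ} (hq : q.Prime)
    (h : HasFreeAut B q) : q ∣ v := by
  obtain ⟨σ, τ, hσ, -, hfree, -⟩ := h
  have := prime_dvd_card hq σ hσ hfree
  rwa [Fintype.card_fin] at this

lemma condition {v k l : ℕ} {B : Fin v → Finset (Fin v)} (h : IsSymmetricDesign v k l B)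
    (hlk : l < k) (hv : v % 2 = 1) (q : ℕ) (hq : q.Prime) (hq4 : q % 4 = 3) (hql : ¬ q ∣ l)
    (hB : HasFreeAut B q) (p : ℕ) (hp : p.Prime) (hp1 : p ∣ k - l) (hp2 : ¬ p^2 ∣ k - l) :
    IsSquare ((-(q:ℤ) : ℤ) : ZMod p) := by
  have hqv := hB.dvd hq
  obtain ⟨hkv, h1, ⟨r, h2⟩, h3⟩ := h
  obtain ⟨σ, τ, hσ, hτ, hfree, hinc⟩ := hB
  exact local_condition B hkv h1 h2 h3 hlk q hq hq4 hqv hv hql σ τ hσ hτ hfree hinc p hp hp1 hp2

theorem sizes_small (l : ℕ) (hl : 0 < l) (ε : ℝ) (hε : 0 < ε) :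
    ∀ᶠ K : ℕ in atTop, (((semiregularSizes l K).ncard : ℕ) : ℝ) ≤ ε * K := by
  classical
  have hroot : ∀ q : ℕ, ∃ c : ℕ, q ∈ Tset l → ∀ k : ℕ, 0 < k → k ≡ c [MOD q] →
      q ∣ k * (k - 1) + l := by
    intro q
    by_cases hq : q ∈ Tset l
    · obtain ⟨c, hc⟩ := Tset_root hl hq
      exact ⟨c, fun _ => hc⟩
    · exact ⟨0, fun h => absurd h hq⟩
  choose c hc using hroot
  set S : Set ℕ := {k | 0 < k ∧ ∃ (v : ℕ) (B : Fin v → Finset (Fin v)),
    IsSymmetricDesign v k l B ∧ ∀ q : ℕ, q.Prime → q % 4 = 3 → q ∣ v → HasFreeAut B q} with hSdef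
  have h := sieve_main l (Tset l) c (fun q hq => Tset_prime hq) (Tset_div hl) S (by
      rintro k ⟨hk, v, B, hd, haut⟩
      have hdes := hd.exists'
      obtain ⟨hlk, hcount⟩ := design_lt hk hdes
      refine ⟨hlk, ?_⟩
      rcases Nat.mod_two_eq_zero_or_one v with hv | hv
      · left
        exact brc_even hdes hlk hv
      · right
        intro q hq hkq p hp hp1 hp2
        have h1 := hc q hq k hk hkq
        rw [← hcount] at h1
        have hv0 := hdes.1
        have h2 : l * (v - 1) + l = l * v := by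
          obtain ⟨v', rfl⟩ : ∃ v', v = v' + 1 := ⟨v - 1, by omega⟩
          simp [Nat.mul_succ]
        rw [h2] at h1
        have hql := Tset_not_dvd hl hq
        have hqv : q ∣ v := ((Tset_prime hq).dvd_mul.mp h1).resolve_left hql
        exact condition hd hlk hv q (Tset_prime hq) (Tset_mod4 hl hq) hql
          (haut q (Tset_prime hq) (Tset_mod4 hl hq) hqv) p hp hp1 hp2) ε hε
  filter_upwards [h] with K hK
  have : semiregularSizes l K = S ∩ Set.Iic K := by
    ext k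
    simp only [semiregularSizes, hSdef, Set.mem_ofPred_eq, Set.mem_inter_iff, Set.mem_Iic]
    tauto
  rw [this]
  exact hK

theorem freeAut_small (q : ℕ) (hq : q.Prime) (hq4 : q % 4 = 3) (l : ℕ) (hql : ¬ q ∣ l) (ε : ℝ)
    (hε : 0 < ε) :
    ∀ᶠ K : ℕ in atTop, (((freeAutSizes q l K).ncard : ℕ) : ℝ) ≤ ε * K := by
  classical
  set S : Set ℕ := {k | 0 < k ∧ ∃ (v : ℕ) (B : Fin v → Finset (Fin v)),
    IsSymmetricDesign v k l B ∧ HasFreeAut B q} with hSdef
  have h := sieve_one l q hq.pos S (by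
      rintro k ⟨hk, v, B, hd, haut⟩
      have hdes := hd.exists'
      obtain ⟨hlk, hcount⟩ := design_lt hk hdes
      refine ⟨hlk, ?_⟩
      rcases Nat.mod_two_eq_zero_or_one v with hv | hv
      · left
        exact brc_even hdes hlk hv
      · right
        intro p hp hp1 hp2
        exact condition hd hlk hv q hq hq4 hql haut p hp hp1 hp2) ε hε
  filter_upwards [h] with K hK
  have : freeAutSizes q l K = S ∩ Set.Iic K := by
    ext k
    simp only [freeAutSizes, hSdef, Set.mem_ofPred_eq, Set.mem_inter_iff, Set.mem_Iic]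
    tauto
  rw [this]
  exact hK

lemma admissible_finite (l K : ℕ) : (admissibleSizes l K).Finite :=
  Pool.Agent.H12.admissibleSizes_finite l K

lemma tendsto_ratio (l : ℕ) (hl : 0 < l) (s : ℕ → Set ℕ)
    (hs : ∀ ε : ℝ, 0 < ε → ∀ᶠ K : ℕ in atTop, (((s K).ncard : ℕ) : ℝ) ≤ ε * K) :
    Tendsto (fun K : ℕ => ((s K).ncard : ℝ) / ((admissibleSizes l K).ncard : ℝ))
      atTop (𝓝 0) := by
  rw [Metric.tendsto_nhds]
  intro ε hε
  have hl' : (0:ℝ) < l := by exact_mod_cast hl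
  filter_upwards [hs (ε / (4 * l)) (by positivity), eventually_gt_atTop 0,
    tendsto_natCast_atTop_atTop.eventually_gt_atTop (4 * l : ℝ)] with K hK1 hK2 hK4
  have hK0 : (0:ℝ) < K := by exact_mod_cast hK2
  have ha : (K:ℝ)/l - 2 ≤ (admissibleSizes l K).ncard :=
    Pool.Agent.H12.admissibleSizes_lower l hl K
  have ha' : (K:ℝ)/(2*l) ≤ (admissibleSizes l K).ncard := by
    have : (2:ℝ) ≤ (K:ℝ)/(2*l) := by
      rw [le_div_iff₀ (by positivity)]; linarith
    have h5 : (K:ℝ)/l = (K:ℝ)/(2*l) + (K:ℝ)/(2*l) := by field_simp; ring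
    linarith
  have hA0 : (0:ℝ) < (admissibleSizes l K).ncard := lt_of_lt_of_le (by positivity) ha'
  rw [Real.dist_eq, sub_zero, abs_of_nonneg (by positivity), div_lt_iff₀ hA0]
  have e2 : ε / (4 * l) * K = ε / 2 * ((K:ℝ)/(2*l)) := by field_simp; ring
  rw [e2] at hK1
  have h6 : 0 < (K:ℝ)/(2*l) := by positivity
  calc _ ≤ ε / 2 * ((K:ℝ)/(2*l)) := hK1
    _ < ε * ((K:ℝ)/(2*l)) := by nlinarith
    _ ≤ _ := mul_le_mul_of_nonneg_left ha' hε.le

theorem differenceSet_sub (l K : ℕ) : differenceSetSizes l K ⊆ semiregularSizes l K := by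
  rintro k ⟨h1, h2, v, hv⟩
  obtain ⟨B, hB, haut⟩ := semiregular_of_differenceSet hv
  exact ⟨h1, h2, v, B, hB, fun q hq _ hqv => haut q hq hqv⟩

theorem semiregular_sub (l K : ℕ) : semiregularSizes l K ⊆ admissibleSizes l K := by
  rintro k ⟨hk0, hkK, v, B, hd, -⟩
  obtain ⟨h1, h2⟩ := design_lt hk0 hd.exists'
  exact ⟨h1, hkK, ⟨v - 1, h2.symm⟩⟩

theorem freeAut_sub (q l K : ℕ) : freeAutSizes q l K ⊆ admissibleSizes l K := by
  rintro k ⟨hk0, hkK, v, B, hd, -⟩
  obtain ⟨h1, h2⟩ := design_lt hk0 hd.exists'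
  exact ⟨h1, hkK, ⟨v - 1, h2.symm⟩⟩

/-! ### Hadamard parameters -/

lemma hadamard_aux {w q : ℕ} (hw : 0 < w) (hq : q.Prime) (hq3 : q ≠ 3) (hqv : q ∣ 4 * w - 1) :
    ¬ q ∣ w - 1 := by
  intro h
  have h1 : q ∣ (4 * w - 1) - 4 * (w - 1) := Nat.dvd_sub hqv (Dvd.dvd.mul_left h 4)
  have h2 : (4 * w - 1) - 4 * (w - 1) = 3 := by omega
  rw [h2] at h1
  exact hq3 ((Nat.prime_dvd_prime_iff_eq hq Nat.prime_three).mp h1)

theorem hadamard_freeAut_small (q : ℕ) (hq : q.Prime) (hq4 : q % 4 = 3) (hq3 : q ≠ 3) (ε : ℝ)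
    (hε : 0 < ε) :
    ∀ᶠ W : ℕ in atTop, (((hadamardFreeAut q W).ncard : ℕ) : ℝ) ≤ ε * W := by
  classical
  set S : Set ℕ := {w | 0 < w ∧ ∃ B : Fin (4 * w - 1) → Finset (Fin (4 * w - 1)),
    IsSymmetricDesign (4 * w - 1) (2 * w - 1) (w - 1) B ∧ HasFreeAut B q} with hSdef
  have h := sieve_one 0 q hq.pos S (by
      rintro w ⟨hw, B, hd, haut⟩
      refine ⟨hw, Or.inr fun p hp hp1 hp2 => ?_⟩
      have e : 2 * w - 1 - (w - 1) = w := by omega
      refine condition hd (by omega) (by omega) q hq hq4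
        (hadamard_aux hw hq hq3 (haut.dvd hq)) haut p hp ?_ ?_
      · rw [e]; exact hp1
      · rw [e]; exact hp2) ε hε
  filter_upwards [h] with K hK
  have : hadamardFreeAut q K = S ∩ Set.Iic K := by
    ext k
    simp only [hadamardFreeAut, hSdef, Set.mem_ofPred_eq, Set.mem_inter_iff, Set.mem_Iic]
    tauto
  rw [this]
  exact hK

theorem hadamard_semiregular_small (ε : ℝ) (hε : 0 < ε) :
    ∀ᶠ W : ℕ in atTop, (((hadamardSemiregular W).ncard : ℕ) : ℝ) ≤ ε * W := by
  classical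
  set S : Set ℕ := {w | 0 < w ∧ ∃ B : Fin (4 * w - 1) → Finset (Fin (4 * w - 1)),
    IsSymmetricDesign (4 * w - 1) (2 * w - 1) (w - 1) B ∧
      ∀ q : ℕ, q.Prime → q % 4 = 3 → q ∣ 4 * w - 1 → HasFreeAut B q} with hSdef
  set T : Set ℕ := {q | q.Prime ∧ ((q : ℕ) : ZMod 12) = ((7 : ℕ) : ZMod 12)} with hT
  have hTmod : ∀ q ∈ T, q % 12 = 7 := by
    intro q hq
    have : q ≡ 7 [MOD 12] := (ZMod.natCast_eq_natCast_iff _ _ _).mp hq.2
    exact this
  have hroot : ∀ q : ℕ, ∃ c : ℕ, q ∈ T → ∀ w : ℕ, 0 < w → w ≡ c [MOD q] → q ∣ 4 * w - 1 := by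
    intro q
    by_cases hq : q ∈ T
    · have hm := hTmod q hq
      -- `4 * ((q+1)/4) = q + 1`
      refine ⟨(q + 1) / 4, fun _ w hw hwc => ?_⟩
      have h1 : 4 * w ≡ 4 * ((q + 1)/4) [MOD q] := hwc.mul_left 4
      have h2 : 4 * ((q + 1)/4) = 1 + q := by omega
      rw [h2] at h1
      have h3 : 4 * w ≡ 1 [MOD q] := by
        refine h1.trans ?_
        unfold Nat.ModEq
        simp
      exact (Nat.modEq_iff_dvd' (by omega)).mp h3.symm
    · exact ⟨0, fun h => absurd h hq⟩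
  choose c hc using hroot
  have h := sieve_main 0 T c (fun q hq => hq.1) (fun C => by
      obtain ⟨Q, h1, h2⟩ := class_div (m := 12) (a := ((7 : ℕ) : ZMod 12))
        ((ZMod.isUnit_iff_coprime _ _).mpr (by norm_num)) C
      exact ⟨Q, h1, h2⟩) S (by
      rintro w ⟨hw, B, hd, haut⟩
      refine ⟨hw, Or.inr fun q hqT hwq p hp hp1 hp2 => ?_⟩
      have hm := hTmod q hqT
      have e : 2 * w - 1 - (w - 1) = w := by omega
      have hqv : q ∣ 4 * w - 1 := hc q hqT w hw hwq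
      refine condition hd (by omega) (by omega) q hqT.1 (by omega)
        (hadamard_aux hw hqT.1 (by omega) hqv) (haut q hqT.1 (by omega) hqv) p hp ?_ ?_
      · rw [e]; exact hp1
      · rw [e]; exact hp2) ε hε
  filter_upwards [h] with K hK
  have : hadamardSemiregular K = S ∩ Set.Iic K := by
    ext k
    simp only [hadamardSemiregular, hSdef, Set.mem_ofPred_eq, Set.mem_inter_iff, Set.mem_Iic]
    tauto
  rw [this]
  exact hK

theorem hadamard_sub (W : ℕ) : hadamardDiffOrders W ⊆ hadamardSemiregular W := by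
  rintro w ⟨h1, h2, h3⟩
  obtain ⟨B, hB, haut⟩ := semiregular_of_differenceSet h3
  exact ⟨h1, h2, B, hB, fun q hq _ hqv => haut q hq hqv⟩

lemma tendsto_div_nat (s : ℕ → Set ℕ)
    (hs : ∀ ε : ℝ, 0 < ε → ∀ᶠ K : ℕ in atTop, (((s K).ncard : ℕ) : ℝ) ≤ ε * K) :
    Tendsto (fun K : ℕ => ((s K).ncard : ℝ) / K) atTop (𝓝 0) := by
  rw [Metric.tendsto_nhds]
  intro ε hε
  filter_upwards [hs (ε / 2) (by positivity), eventually_gt_atTop 0] with K hK1 hK2
  have hK0 : (0:ℝ) < K := by exact_mod_cast hK2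
  rw [Real.dist_eq, sub_zero, abs_of_nonneg (by positivity), div_lt_iff₀ hK0]
  nlinarith

end Pool.Agent.H24.DS
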